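import Pool.Agent.Lib.MP_94fdc2_nt.Base

/-!
# Progressions `q, q + A, …, q + (q - 1) A` with almost prime terms (MP_d49082_nt)
-/

set_option autoImplicit false

open Finset

namespace Pool.Agent.Results.MP_d49082_nt.AlmostPrimes

open ArithmeticFunction Pool.Agent.SievePar

theorem exists_l0 (κ : ℕ) (hκ : 1 ≤ κ) :
    ∃ l₀ : ℕ, 2 * κ + 1 ≤ 2 ^ 2 ^ l₀ ∧ 2 ^ 2 ^ l₀ ≤ 4 * κ ^ 2 := by
  have hex : ∃ l, 2 * κ + 1 ≤ 2 ^ 2 ^ l := by
    refine ⟨2 * κ + 1, ?_⟩
    have h1 : 2 * κ + 1 < 2 ^ (2 * κ + 1) := Nat.lt_two_pow_self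
    have h2 : 2 ^ (2 * κ + 1) < 2 ^ 2 ^ (2 * κ + 1) := Nat.pow_lt_pow_right (by norm_num) h1
    omega
  classical
  have hspec := Nat.find_spec hex
  have hmin := fun {l : ℕ} (hl : l < Nat.find hex) => Nat.find_min hex hl
  obtain ⟨L, hL⟩ : ∃ L, L = Nat.find hex := ⟨_, rfl⟩
  rw [← hL] at hspec
  rcases Nat.eq_zero_or_pos L with h0 | h0
  · rw [h0] at hspec
    norm_num at hspec
    omega
  · obtain ⟨M, hM⟩ : ∃ M, L = M + 1 := ⟨L - 1, by omega⟩
    refine ⟨L, hspec, ?_⟩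
    have h1 := hmin (l := M) (by omega)
    have h2 : 2 ^ 2 ^ M ≤ 2 * κ := by omega
    calc 2 ^ 2 ^ L = (2 ^ 2 ^ M) ^ 2 := by
          rw [hM, ← pow_mul]
          congr 1
      _ ≤ (2 * κ) ^ 2 := Nat.pow_le_pow_left h2 2
      _ = 4 * κ ^ 2 := by ring

theorem exp_bound (q : ℕ) (hq : 2 ≤ q) :
    2 * Real.exp (16 * ((q - 1 : ℕ) : ℝ)) < 4 ^ (12 * q) := by
  obtain ⟨κ, rfl⟩ : ∃ κ, q = κ + 1 := ⟨q - 1, by omega⟩
  have h1 : Real.exp (16 * ((κ + 1 - 1 : ℕ) : ℝ)) = (Real.exp 1 ^ 16) ^ κ := by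
    rw [← Real.exp_nat_mul, ← Real.exp_nat_mul]
    congr 1
    rw [Nat.add_sub_cancel]
    push_cast
    ring
  have h2 : Real.exp 1 < 2.7182818286 := Real.exp_one_lt_d9
  have h3 : Real.exp 1 ^ 16 ≤ 2 ^ 24 := by
    have h4 : Real.exp 1 ^ 16 < 2.7182818286 ^ 16 :=
      pow_lt_pow_left₀ h2 (Real.exp_pos _).le (by norm_num)
    have h5 : (2.7182818286 : ℝ) ^ 16 ≤ 2 ^ 24 := by norm_num
    linarith
  have h6 : (Real.exp 1 ^ 16) ^ κ ≤ (2 ^ 24) ^ κ := pow_le_pow_left₀ (by positivity) h3 κ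
  have h7 : (4 : ℝ) ^ (12 * (κ + 1)) = (2 ^ 24) ^ κ * 2 ^ 24 := by
    have h8 : (4 : ℝ) = 2 ^ 2 := by norm_num
    rw [h8, ← pow_mul, ← pow_mul, ← pow_add]
    congr 1
    ring
  have h9 : (0 : ℝ) < (2 ^ 24) ^ κ := by positivity
  rw [h1, h7]
  nlinarith

theorem level (q : ℕ) (hq : 2 ≤ q) (R : ℕ) :
    2 * ((R : ℝ) + 2) * Real.exp (8 * ((q - 1 : ℕ) : ℝ) * R) ≤
    2 ^ (2 ^ R * (8 * (12 * q) + 12)) := by
  have h5 : (2 : ℝ) * ((R : ℝ) + 2) ≤ Real.exp (R + 2) := by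
    have h6 : (R : ℝ) + 2 ≤ Real.exp (R + 1) := by
      have := Real.add_one_le_exp ((R : ℝ) + 1)
      linarith
    have h7 : (2 : ℝ) ≤ Real.exp 1 := by
      have := Real.add_one_le_exp (1 : ℝ)
      linarith
    have h8 : Real.exp ((R : ℝ) + 2) = Real.exp 1 * Real.exp (R + 1) := by
      rw [← Real.exp_add]; ring_nf
    rw [h8]
    exact mul_le_mul h7 h6 (by positivity) (Real.exp_pos _).le
  have h9 : Real.exp 1 ≤ 2 ^ 2 := by
    have := Real.exp_one_lt_d9
    norm_num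
    linarith
  calc 2 * ((R : ℝ) + 2) * Real.exp (8 * ((q - 1 : ℕ) : ℝ) * R)
      ≤ Real.exp (R + 2) * Real.exp (8 * ((q - 1 : ℕ) : ℝ) * R) :=
        mul_le_mul_of_nonneg_right h5 (Real.exp_pos _).le
    _ = Real.exp (((8 * (q - 1) * R + R + 2 : ℕ) : ℝ) * 1) := by
        rw [← Real.exp_add]
        congr 1
        push_cast
        ring
    _ = Real.exp 1 ^ (8 * (q - 1) * R + R + 2) := by rw [Real.exp_nat_mul]
    _ ≤ (2 ^ 2) ^ (8 * (q - 1) * R + R + 2) := pow_le_pow_left₀ (Real.exp_pos _).le h9 _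
    _ = 2 ^ (2 * (8 * (q - 1) * R + R + 2)) := by rw [← pow_mul]
    _ ≤ 2 ^ (2 ^ R * (8 * (12 * q) + 12)) := by
        refine pow_le_pow_right₀ (by norm_num) ?_
        have h1 : R + 1 ≤ 2 ^ R := Nat.lt_two_pow_self
        have h2 : (R + 1) * (8 * (12 * q) + 12) ≤ 2 ^ R * (8 * (12 * q) + 12) :=
          Nat.mul_le_mul_right _ h1
        refine le_trans ?_ h2
        obtain ⟨κ, rfl⟩ : ∃ κ, q = κ + 1 := ⟨q - 1, by omega⟩
        rw [Nat.add_sub_cancel]
        nlinarith [Nat.zero_le (κ * R), Nat.zero_le R, Nat.zero_le κ]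

/-- the base residue: `1` modulo `q` and `0` modulo the other primes up to `P` -/
theorem exists_base (q P : ℕ) (hq : q.Prime) (hqP : q ≤ P) :
    ∃ a : ℕ, 0 < a ∧ a < primorial P ∧ ∀ p : ℕ, p.Prime → p ≤ P → ∀ s k : ℕ, 0 < k → k < q →
      ¬ p ∣ q + k * (a + primorial P * s) := by
  classical
  have hpp : Set.Pairwise (((range (P + 1)).filter Nat.Prime : Finset ℕ) : Set ℕ)
      (Function.onFun Nat.Coprime (fun p : ℕ => p)) := by
    intro p hp r hr hpr
    have hp2 := (Finset.mem_filter.mp (Finset.mem_coe.mp hp)).2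
    have hr2 := (Finset.mem_filter.mp (Finset.mem_coe.mp hr)).2
    exact (Nat.coprime_primes hp2 hr2).mpr hpr
  obtain ⟨x, hx⟩ := Nat.chineseRemainderOfFinset (fun p => if p = q then 1 else 0)
    (fun p : ℕ => p) ((range (P + 1)).filter Nat.Prime)
    (fun p hp => (Finset.mem_filter.mp hp).2.ne_zero) hpp
  have hW : 0 < primorial P := primorial_pos P
  have hdW : ∀ p : ℕ, p.Prime → p ≤ P → p ∣ primorial P := by
    intro p hp hpP
    unfold primorial
    exact Finset.dvd_prod_of_mem _ (by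
      rw [Finset.mem_filter, Finset.mem_range]
      exact ⟨by omega, hp⟩)
  have hxa : ∀ p : ℕ, p.Prime → p ≤ P → x % primorial P ≡ (if p = q then 1 else 0) [MOD p] := by
    intro p hp hpP
    have h1 := hx p (by rw [Finset.mem_filter, Finset.mem_range]; exact ⟨by omega, hp⟩)
    have h2 : x % primorial P ≡ x [MOD p] :=
      (Nat.mod_modEq x (primorial P)).of_dvd (hdW p hp hpP)
    exact h2.trans h1
  refine ⟨x % primorial P, ?_, Nat.mod_lt _ hW, ?_⟩
  · rcases Nat.eq_zero_or_pos (x % primorial P) with h0 | h0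
    · exfalso
      have h1 := hxa q hq hqP
      rw [h0, if_pos rfl] at h1
      have h2 : q ∣ 1 := (Nat.modEq_zero_iff_dvd).mp h1.symm
      exact hq.one_lt.ne' (Nat.dvd_one.mp h2)
    · exact h0
  · intro p hp hpP s k hk0 hkq hdvd
    have h1 := hxa p hp hpP
    have h2 : x % primorial P + primorial P * s ≡ (if p = q then 1 else 0) [MOD p] := by
      have h3 : primorial P * s ≡ 0 [MOD p] :=
        (Nat.modEq_zero_iff_dvd).mpr (Dvd.dvd.mul_right (hdW p hp hpP) _)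
      exact h1.add h3
    have h4 : q + k * (x % primorial P + primorial P * s) ≡
        q + k * (if p = q then 1 else 0) [MOD p] := (Nat.ModEq.rfl).add (h2.mul_left k)
    have h5 : q + k * (if p = q then 1 else 0) ≡ 0 [MOD p] :=
      h4.symm.trans ((Nat.modEq_zero_iff_dvd).mpr hdvd)
    have h6 := (Nat.modEq_zero_iff_dvd).mp h5
    by_cases hpq : p = q
    · rw [if_pos hpq, mul_one, hpq] at h6
      have h7 : q ∣ k := (Nat.dvd_add_right (dvd_refl q)).mp h6
      exact absurd (Nat.le_of_dvd hk0 h7) (by omega)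
    · rw [if_neg hpq, mul_zero, add_zero] at h6
      exact hpq ((Nat.prime_dvd_prime_iff_eq hp hq).mp h6)

open scoped Classical in
/-- the excluded residues -/
noncomputable def SS (q P a W : ℕ) (p : ℕ) : Finset ℕ :=
  if p.Prime ∧ P < p then
    (range p).filter (fun s => ∃ k, 0 < k ∧ k < q ∧ p ∣ q + k * (a + W * s)) else ∅

theorem SS_card (q P a W : ℕ) (hqP : q ≤ P) (hW : ∀ p : ℕ, p.Prime → P < p → ¬ p ∣ W) (p : ℕ) :
    (SS q P a W p).card ≤ q - 1 := by
  classical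
  unfold SS
  split_ifs with h
  · obtain ⟨hp, hPp⟩ := h
    have h1 : (range p).filter (fun s => ∃ k, 0 < k ∧ k < q ∧ p ∣ q + k * (a + W * s)) ⊆
        (Finset.Ico 1 q).biUnion (fun k => (range p).filter
          (fun s => p ∣ q + k * (a + W * s))) := by
      intro s hs
      rw [Finset.mem_filter] at hs
      obtain ⟨hs1, k, hk0, hkq, hd⟩ := hs
      rw [Finset.mem_biUnion]
      exact ⟨k, Finset.mem_Ico.mpr ⟨hk0, hkq⟩, Finset.mem_filter.mpr ⟨hs1, hd⟩⟩
    have h2 : ∀ k ∈ Finset.Ico 1 q, ((range p).filter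
        (fun s => p ∣ q + k * (a + W * s))).card ≤ 1 := by
      intro k hk
      rw [Finset.mem_Ico] at hk
      rw [Finset.card_le_one]
      intro s hs t ht
      rw [Finset.mem_filter, Finset.mem_range] at hs ht
      have hco : Nat.Coprime p (k * W) := by
        rw [Nat.Prime.coprime_iff_not_dvd hp]
        intro hd
        rcases (hp.dvd_mul).mp hd with h3 | h3
        · exact absurd (Nat.le_of_dvd (by omega) h3) (by omega)
        · exact hW p hp hPp h3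
      have h4 : q + k * (a + W * s) ≡ q + k * (a + W * t) [MOD p] :=
        ((Nat.modEq_zero_iff_dvd).mpr hs.2).trans ((Nat.modEq_zero_iff_dvd).mpr ht.2).symm
      have h5 : (q + k * a) + k * W * s ≡ (q + k * a) + k * W * t [MOD p] := by
        have e1 : (q + k * a) + k * W * s = q + k * (a + W * s) := by ring
        have e2 : (q + k * a) + k * W * t = q + k * (a + W * t) := by ring
        rw [e1, e2]
        exact h4
      have h6 := Nat.ModEq.add_left_cancel' _ h5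
      have h7 : s ≡ t [MOD p] := Nat.ModEq.cancel_left_of_coprime hco h6
      exact Nat.ModEq.eq_of_lt_of_lt h7 hs.1 ht.1
    calc ((range p).filter (fun s => ∃ k, 0 < k ∧ k < q ∧ p ∣ q + k * (a + W * s))).card
        ≤ ((Finset.Ico 1 q).biUnion (fun k => (range p).filter
          (fun s => p ∣ q + k * (a + W * s)))).card := Finset.card_le_card h1
      _ ≤ ∑ k ∈ Finset.Ico 1 q, ((range p).filter (fun s => p ∣ q + k * (a + W * s))).card :=
          Finset.card_biUnion_le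
      _ ≤ ∑ k ∈ Finset.Ico 1 q, 1 := Finset.sum_le_sum h2
      _ = q - 1 := by simp
  · simp

theorem not_dvd_primorial (P p : ℕ) (hp : p.Prime) (hPp : P < p) : ¬ p ∣ primorial P := by
  intro h
  unfold primorial at h
  obtain ⟨r, hr, hd⟩ := (Prime.dvd_finsetProd_iff hp.prime _).mp h
  rw [Finset.mem_filter, Finset.mem_range] at hr
  have := (Nat.prime_dvd_prime_iff_eq hp hr.2).mp hd
  omega

/-- exponents -/
theorem expo (q : ℕ) (hq : 2 ≤ q) :
    8 * q ^ 2 + (2 * (8 * q ^ 2 + 1) * (192 * q + 24) + 1) ≤ 3400 * q ^ 3 := by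
  have h1 : 2 * q ^ 2 ≤ q ^ 3 := by
    have : q ^ 3 = q * q ^ 2 := by ring
    rw [this]
    exact Nat.mul_le_mul_right _ hq
  have h2 : 4 * q ≤ q ^ 3 := by
    have h3 : 2 * q ≤ q ^ 2 := by
      rw [sq]
      exact Nat.mul_le_mul_right _ hq
    omega
  have h4 : 8 ≤ q ^ 3 := by
    calc 8 = 2 ^ 3 := by norm_num
      _ ≤ q ^ 3 := Nat.pow_le_pow_left hq 3
  have h5 : 8 * q ^ 2 + (2 * (8 * q ^ 2 + 1) * (192 * q + 24) + 1) =
      3072 * q ^ 3 + 392 * q ^ 2 + 384 * q + 49 := by ring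
  rw [h5]
  omega

theorem main (q : ℕ) (hq : q.Prime) (X : ℕ) (hX : 2 ^ (3400 * q ^ 3) ≤ X) :
    ∃ T : Finset ℕ, X < T.card ^ 5 ∧ ∀ A ∈ T, 0 < A ∧ A ≤ X ∧
      ∀ k, 0 < k → k < q → ∀ p : ℕ, p.Prime → p ∣ q + k * A → X < p ^ (409 * q) := by
  classical
  have hq2 : 2 ≤ q := hq.two_le
  obtain ⟨l₀, hl1, hl2⟩ := exists_l0 (q - 1) (by omega)
  obtain ⟨P, hP⟩ : ∃ P, P = 2 ^ 2 ^ l₀ := ⟨_, rfl⟩
  have hqP : q ≤ P := by rw [hP]; omega
  have hP2 : P ≤ 4 * q ^ 2 := by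
    rw [hP]
    refine hl2.trans (Nat.mul_le_mul_left _ (Nat.pow_le_pow_left (by omega) 2))
  obtain ⟨a, ha0, haW, ha⟩ := exists_base q P hq hqP
  obtain ⟨W, hW⟩ : ∃ W, W = primorial P := ⟨_, rfl⟩
  rw [← hW] at haW ha
  have hW0 : 0 < W := by omega
  have hW8 : W ≤ 2 ^ (8 * q ^ 2) := by
    rw [hW]
    calc primorial P ≤ 4 ^ P := primorial_le_four_pow P
      _ ≤ 4 ^ (4 * q ^ 2) := Nat.pow_le_pow_right (by norm_num) hP2
      _ = 2 ^ (8 * q ^ 2) := by
          have : (4 : ℕ) = 2 ^ 2 := by norm_num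
          rw [this, ← pow_mul]
          congr 1
          ring
  obtain ⟨u, hu⟩ : ∃ u, u = 192 * q + 24 := ⟨_, rfl⟩
  obtain ⟨c, hc⟩ : ∃ c, c = 8 * q ^ 2 := ⟨_, rfl⟩
  have hexpo : c + (2 * (c + 1) * u + 1) ≤ 3400 * q ^ 3 := by
    rw [hc, hu]
    exact expo q hq2
  rw [← hc] at hW8
  -- the length
  obtain ⟨Y, hY⟩ : ∃ Y, Y = X / W - 1 := ⟨_, rfl⟩
  have hXW : 2 ^ (2 * (c + 1) * u + 1) ≤ X / W := by
    rw [Nat.le_div_iff_mul_le hW0]
    calc 2 ^ (2 * (c + 1) * u + 1) * W ≤ 2 ^ (2 * (c + 1) * u + 1) * 2 ^ c :=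
          Nat.mul_le_mul_left _ hW8
      _ = 2 ^ (c + (2 * (c + 1) * u + 1)) := by
          rw [← pow_add]
          congr 1
          ring
      _ ≤ 2 ^ (3400 * q ^ 3) := Nat.pow_le_pow_right (by norm_num) hexpo
      _ ≤ X := hX
  have hYlow : 2 ^ (2 * (c + 1) * u) ≤ Y := by
    have h1 : 2 ^ (2 * (c + 1) * u + 1) = 2 * 2 ^ (2 * (c + 1) * u) := by ring
    have h2 : 1 ≤ 2 ^ (2 * (c + 1) * u) := Nat.one_le_two_pow
    omega
  have hu0 : 0 < u := by omega
  have hex : ∃ R, Y < 2 ^ (2 ^ R * u) := by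
    refine ⟨Y, ?_⟩
    have h1 : Y < 2 ^ Y := Nat.lt_two_pow_self
    have h2 : Y ≤ 2 ^ Y * u := h1.le.trans (Nat.le_mul_of_pos_right _ hu0)
    exact h1.trans_le (Nat.pow_le_pow_right (by norm_num) h2)
  have hspec := Nat.find_spec hex
  have hmin := fun {R : ℕ} (hR : R < Nat.find hex) => Nat.find_min hex hR
  obtain ⟨R1, hR1⟩ : ∃ R1, R1 = Nat.find hex := ⟨_, rfl⟩
  rw [← hR1] at hspec
  have hR2 : 2 * (c + 1) < 2 ^ R1 := by
    have h1 : 2 ^ (2 * (c + 1) * u) < 2 ^ (2 ^ R1 * u) := hYlow.trans_lt hspec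
    have h2 := (Nat.pow_lt_pow_iff_right (by norm_num)).mp h1
    exact (Nat.mul_lt_mul_right hu0).mp h2
  have hR0 : 0 < R1 := by
    rcases Nat.eq_zero_or_pos R1 with h0 | h0
    · exfalso
      rw [h0, pow_zero] at hR2
      omega
    · exact h0
  obtain ⟨R, hR⟩ : ∃ R, R1 = R + 1 := ⟨R1 - 1, by omega⟩
  have hlow : 2 ^ (2 ^ R * u) ≤ Y := not_lt.mp (hmin (R := R) (by omega))
  have hcR : c + 1 ≤ 2 ^ R := by
    rw [hR, pow_succ] at hR2
    omega
  have hsieve := Pool.Agent.MP_94fdc2_nt.sieve_count_m (q - 1) l₀ (12 * q) hl1 (exp_bound q hq2) R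
    (level q hq2 R) (SS q P a W) (fun p => by
      unfold SS
      split_ifs
      · exact Finset.filter_subset _ _
      · exact Finset.empty_subset _)
    (SS_card q P a W hqP (fun p hp hPp => by rw [hW]; exact not_dvd_primorial P p hp hPp))
    (fun p hp => by
      unfold SS
      rw [if_neg]
      rw [hP]
      omega)
  have hu2 : 2 ^ R * (16 * (12 * q) + 24) = 2 ^ R * u := by rw [hu]; ring
  rw [hu2] at hsieve
  obtain ⟨z, hz⟩ : ∃ z, z = 2 ^ 2 ^ R := ⟨_, rfl⟩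
  rw [← hz] at hsieve
  -- the upper bound of `X`
  have hXz : X < z ^ (2 * u + 1) := by
    have h1 : X < W * (X / W + 1) := by
      have := Nat.lt_mul_div_succ X hW0
      exact this
    have h2 : X / W + 1 = Y + 2 := by
      have : 1 ≤ X / W := le_trans Nat.one_le_two_pow hXW
      omega
    have h3 : Y + 2 ≤ 2 ^ (2 ^ R1 * u) * 2 := by
      have h4 : 2 ≤ 2 ^ (2 ^ R1 * u) := by
        calc 2 = 2 ^ 1 := by norm_num
          _ ≤ 2 ^ (2 ^ R1 * u) := Nat.pow_le_pow_right (by norm_num)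
            (Nat.one_le_iff_ne_zero.mpr (by positivity))
      omega
    calc X < W * (Y + 2) := by rw [← h2]; exact h1
      _ ≤ 2 ^ c * (2 ^ (2 ^ R1 * u) * 2) := Nat.mul_le_mul hW8 h3
      _ = 2 ^ (c + 1 + 2 ^ R1 * u) := by ring
      _ ≤ 2 ^ (2 ^ R + 2 ^ R1 * u) := Nat.pow_le_pow_right (by norm_num) (by omega)
      _ = z ^ (2 * u + 1) := by
          rw [hz, ← pow_mul, hR]
          congr 1
          ring
  have hzpos : 1 ≤ z := by rw [hz]; exact Nat.one_le_two_pow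
  refine ⟨(sv (SS q P a W) z (2 ^ (2 ^ R * u))).image (fun s => a + W * s), ?_, ?_⟩
  · rw [Finset.card_image_of_injective _ (fun s t hst => by
      have h1 : a + W * s = a + W * t := hst
      have h2 : W * s = W * t := by omega
      exact Nat.eq_of_mul_eq_mul_left hW0 h2)]
    have h1 : z ^ (96 * q + 12) ≤ (sv (SS q P a W) z (2 ^ (2 ^ R * u))).card := by
      refine le_trans (le_of_eq ?_) hsieve
      rw [hz, ← pow_mul]
      congr 1
      ring
    calc X < z ^ (2 * u + 1) := hXz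
      _ ≤ z ^ ((96 * q + 12) * 5) := Nat.pow_le_pow_right hzpos (by omega)
      _ = (z ^ (96 * q + 12)) ^ 5 := pow_mul _ _ _
      _ ≤ _ := Nat.pow_le_pow_left h1 _
  · intro A hA
    rw [Finset.mem_image] at hA
    obtain ⟨s, hsm, rfl⟩ := hA
    rw [mem_sv] at hsm
    refine ⟨by omega, ?_, ?_⟩
    · have h1 : s + 1 ≤ Y := by
        have := hsm.1
        omega
      calc a + W * s ≤ W + W * s := by omega
        _ = W * (s + 1) := by ring
        _ ≤ W * Y := Nat.mul_le_mul_left _ h1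
        _ ≤ W * (X / W) := Nat.mul_le_mul_left _ (by omega)
        _ ≤ X := Nat.mul_div_le X W
    · intro k hk0 hkq p hp hdvd
      have hzp : z < p := by
        by_contra hcon
        push Not at hcon
        rcases Nat.lt_or_ge P p with h16 | h16
        · apply hsm.2 p hp hcon
          unfold SS
          rw [if_pos ⟨hp, h16⟩, Finset.mem_filter, Finset.mem_range]
          refine ⟨Nat.mod_lt _ hp.pos, k, hk0, hkq, ?_⟩
          have h1 : q + k * (a + W * (s % p)) ≡ q + k * (a + W * s) [MOD p] :=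
            (Nat.ModEq.rfl).add (((Nat.ModEq.rfl).add ((Nat.mod_modEq s p).mul_left W)).mul_left k)
          exact (Nat.modEq_zero_iff_dvd).mp (h1.trans ((Nat.modEq_zero_iff_dvd).mpr hdvd))
        · exact ha p hp h16 s k hk0 hkq hdvd
      calc X < z ^ (2 * u + 1) := hXz
        _ ≤ z ^ (409 * q) := Nat.pow_le_pow_right hzpos (by omega)
        _ ≤ p ^ (409 * q) := Nat.pow_le_pow_left hzp.le _

theorem Omega_bound {v X D : ℕ} (hX : 2 ≤ X) (hv : v ≠ 0) (hle : v ^ D ≤ X ^ (D + 1))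
    (h : ∀ p : ℕ, p.Prime → p ∣ v → X < p ^ D) : cardFactors v ≤ D + 1 := by
  rw [cardFactors_apply]
  have h1 : X ^ v.primeFactorsList.length ≤ (v.primeFactorsList.map (fun p => p ^ D)).prod := by
    have h2 := List.pow_card_le_prod (l := v.primeFactorsList.map (fun p => p ^ D)) (n := X) (by
      intro r hr
      rw [List.mem_map] at hr
      obtain ⟨p, hp, rfl⟩ := hr
      exact (h p (Nat.prime_of_mem_primeFactorsList hp) (Nat.dvd_of_mem_primeFactorsList hp)).le)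
    rwa [List.length_map] at h2
  have h3 : (v.primeFactorsList.map (fun p => p ^ D)).prod = v ^ D := by
    have h4 := (List.prod_hom v.primeFactorsList (powMonoidHom D : ℕ →* ℕ))
    rw [Nat.prod_primeFactorsList hv] at h4
    exact h4
  rw [h3] at h1
  exact (Nat.pow_le_pow_iff_right (by omega)).mp (h1.trans hle)

theorem Omega_le (q : ℕ) (hq : q.Prime) (X : ℕ) (hX : 2 ^ (3400 * q ^ 3) ≤ X) (A : ℕ)
    (hAX : A ≤ X) (k : ℕ) (hkq : k < q)
    (hA : ∀ p : ℕ, p.Prime → p ∣ q + k * A → X < p ^ (409 * q)) :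
    cardFactors (q + k * A) ≤ 410 * q := by
  have hq2 : 2 ≤ q := hq.two_le
  have hq3 : 1 ≤ q ^ 3 := Nat.one_le_iff_ne_zero.mpr (by positivity)
  have hqX : q ^ (409 * q) ≤ X := by
    have h1 : q < 2 ^ q := Nat.lt_two_pow_self
    calc q ^ (409 * q) ≤ (2 ^ q) ^ (409 * q) := Nat.pow_le_pow_left h1.le _
      _ = 2 ^ (q * (409 * q)) := by rw [← pow_mul]
      _ ≤ 2 ^ (3400 * q ^ 3) := by
          refine Nat.pow_le_pow_right (by norm_num) ?_
          nlinarith [Nat.mul_le_mul_right (q ^ 2) hq2, Nat.zero_le (q ^ 2)]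
      _ ≤ X := hX
  have hX2 : 2 ≤ X := by
    calc 2 = 2 ^ 1 := by norm_num
      _ ≤ 2 ^ (3400 * q ^ 3) := Nat.pow_le_pow_right (by norm_num) (by omega)
      _ ≤ X := hX
  have hqX1 : q ≤ X := by
    calc q = q ^ 1 := (pow_one q).symm
      _ ≤ q ^ (409 * q) := Nat.pow_le_pow_right (by omega) (by omega)
      _ ≤ X := hqX
  have hv : q + k * A ≤ q * X := by
    obtain ⟨κ, rfl⟩ : ∃ κ, q = κ + 1 := ⟨q - 1, by omega⟩
    calc κ + 1 + k * A ≤ X + κ * X := by
          have : k * A ≤ κ * X := Nat.mul_le_mul (by omega) hAX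
          omega
      _ = (κ + 1) * X := by ring
  have h1 := Omega_bound (v := q + k * A) (X := X) (D := 409 * q) hX2 (by omega) (by
    calc (q + k * A) ^ (409 * q) ≤ (q * X) ^ (409 * q) := Nat.pow_le_pow_left hv _
      _ = q ^ (409 * q) * X ^ (409 * q) := mul_pow _ _ _
      _ ≤ X * X ^ (409 * q) := Nat.mul_le_mul_right _ hqX
      _ = X ^ (409 * q + 1) := by ring) hA
  omega

/-- For every prime `q` and every `X ≥ 2 ^ (3400 q ^ 3)` more than `X ^ (1 / 5)` numbers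
`1 ≤ A ≤ X` have the property that each of `q + A, q + 2 A, …, q + (q - 1) A` has no prime factor
`p ≤ X ^ (1 / (409 q))` and at most `410 q` prime factors, counted with multiplicity. -/
theorem result (q : ℕ) (hq : q.Prime) (X : ℕ) (hX : 2 ^ (3400 * q ^ 3) ≤ X) :
    X < {A : ℕ | 0 < A ∧ A ≤ X ∧ ∀ k, 0 < k → k < q →
      (∀ p : ℕ, p.Prime → p ∣ q + k * A → X < p ^ (409 * q)) ∧
      cardFactors (q + k * A) ≤ 410 * q}.ncard ^ 5 := by
  obtain ⟨T, hT1, hT2⟩ := main q hq X hX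
  refine hT1.trans_le (Nat.pow_le_pow_left ?_ _)
  rw [← Set.ncard_coe_finset]
  refine Set.ncard_le_ncard ?_ ?_
  · intro A hA
    obtain ⟨h1, h2, h3⟩ := hT2 A (Finset.mem_coe.mp hA)
    exact ⟨h1, h2, fun k hk0 hkq => ⟨h3 k hk0 hkq, Omega_le q hq X hX A h2 k hkq (h3 k hk0 hkq)⟩⟩
  · refine Set.Finite.subset (Set.finite_Iic X) ?_
    rintro A ⟨_, h2, _⟩
    exact h2

end Pool.Agent.Results.MP_d49082_nt.AlmostPrimes
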