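import Mathlib

/-!
# Progressions `q, q + A, …, q + (q - 1) A` whose terms have few divisors (MP_d49082_nt)

For every prime `q` there is `A`, of the order of magnitude `exp (c q)`, such that all the numbers
`q + k A`, `0 < k < q`, are squarefree, without prime factors below `q`, and have together at most
`16 q ^ 2` divisors.
-/

set_option autoImplicit false

namespace Pool.Agent.Results.MP_d49082_nt.FewDivisors

open Finset

/-- In `{1, …, M}` there are at most `M / d + 1` numbers `B` with `d ∣ q + c B`. -/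
theorem count_le {q c : ℕ} (hq : q.Prime) (hc : ¬ q ∣ c) (d M : ℕ) :
    ((Icc 1 M).filter fun B => d ∣ q + c * B).card ≤ M / d + 1 := by
  rcases Nat.eq_zero_or_pos d with rfl | hd
  · have h0 : ((Icc 1 M).filter fun B => 0 ∣ q + c * B) = ∅ := by
      apply filter_eq_empty_iff.2
      intro B _ h
      have h1 := Nat.eq_zero_of_zero_dvd h
      have h2 := hq.pos
      omega
    rw [h0]
    simp
  have key : ∀ B B' : ℕ, d ∣ q + c * B → d ∣ q + c * B' → B ≤ B' → d ∣ B' - B := by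
    intro B B' h h' hle
    have hcop : Nat.Coprime d c := by
      apply Nat.Coprime.symm
      apply Nat.coprime_of_dvd
      intro l hl hlc hld
      have h1 : l ∣ q + c * B := hld.trans h
      have h2 : l ∣ q := (Nat.dvd_add_left (hlc.mul_right B)).1 h1
      have h3 : l = q := (Nat.prime_dvd_prime_iff_eq hl hq).1 h2
      exact hc (h3 ▸ hlc)
    have h1 : d ∣ (q + c * B') - (q + c * B) := Nat.dvd_sub h' h
    have h2 : (q + c * B') - (q + c * B) = c * (B' - B) := by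
      rw [Nat.mul_sub]
      omega
    rw [h2] at h1
    exact hcop.dvd_of_dvd_mul_left h1
  have h1 : ((Icc 1 M).filter fun B => d ∣ q + c * B).card ≤ (range (M / d + 1)).card := by
    apply card_le_card_of_injOn (fun B => B / d)
    · intro B hB
      rw [mem_coe, mem_filter, mem_Icc] at hB
      rw [mem_coe, mem_range]
      exact Nat.lt_succ_of_le (Nat.div_le_div_right hB.1.2)
    · intro B hB B' hB' h
      rw [mem_coe, mem_filter] at hB hB'
      have hdiv : B / d = B' / d := h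
      rcases le_total B B' with hle | hle
      · obtain ⟨t, ht⟩ := key B B' hB.2 hB'.2 hle
        have e : B' = B + d * t := by omega
        rw [e, Nat.add_mul_div_left _ _ hd] at hdiv
        have ht0 : t = 0 := by omega
        rw [ht0] at e
        omega
      · obtain ⟨t, ht⟩ := key B' B hB'.2 hB.2 hle
        have e : B = B' + d * t := by omega
        rw [e, Nat.add_mul_div_left _ _ hd] at hdiv
        have ht0 : t = 0 := by omega
        rw [ht0] at e
        omega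
  rwa [card_range] at h1

/-- Half of the divisors are at most the square root. -/
theorem card_divisors_le {N D : ℕ} (hN : 0 < N) (hD : N ≤ D ^ 2) :
    N.divisors.card ≤ 2 * ((Icc 1 D).filter fun d => d ∣ N).card := by
  have h1 : (N.divisors.filter fun d => d ≤ D) ⊆ (Icc 1 D).filter fun d => d ∣ N := by
    intro d hd
    rw [mem_filter, Nat.mem_divisors] at hd
    rw [mem_filter, mem_Icc]
    exact ⟨⟨Nat.pos_of_dvd_of_pos hd.1.1 hN, hd.2⟩, hd.1.1⟩
  have h2 : (N.divisors.filter fun d => ¬ d ≤ D).card ≤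
      ((Icc 1 D).filter fun d => d ∣ N).card := by
    apply card_le_card_of_injOn (fun d => N / d)
    · intro d hd
      rw [mem_coe, mem_filter, Nat.mem_divisors] at hd
      rw [mem_coe, mem_filter, mem_Icc]
      have hd0 : 0 < d := Nat.pos_of_dvd_of_pos hd.1.1 hN
      refine ⟨⟨Nat.div_pos (Nat.le_of_dvd hN hd.1.1) hd0, ?_⟩, Nat.div_dvd_of_dvd hd.1.1⟩
      have h3 : D + 1 ≤ d := by omega
      calc N / d ≤ D ^ 2 / (D + 1) := Nat.div_le_div hD h3 (by omega)
        _ ≤ D := by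
          apply Nat.le_of_lt_succ
          rw [Nat.div_lt_iff_lt_mul (by omega)]
          nlinarith
    · intro d hd d' hd' h
      rw [mem_coe, mem_filter, Nat.mem_divisors] at hd hd'
      have h3 : N / d = N / d' := h
      have h4 := Nat.div_div_self hd.1.1 hN.ne'
      have h5 := Nat.div_div_self hd'.1.1 hN.ne'
      rw [← h4, ← h5, h3]
  have h3 := card_filter_add_card_filter_not (s := N.divisors) (fun d => d ≤ D)
  have h4 := card_le_card h1
  omega

/-- The sum of `1 / n ^ 2` over `n = q, q + 2, q + 4, …` is at most `1 / (2 (q - 1))`. -/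
theorem sum_sq_le {q : ℕ} (hq : 2 ≤ q) (J : ℕ) :
    ∑ j ∈ range J, (1 : ℝ) / ((q + 2 * j : ℕ) : ℝ) ^ 2 ≤
      1 / 2 * (1 / ((q : ℝ) - 1) - 1 / ((q : ℝ) + 2 * J - 1)) := by
  have hq' : (2 : ℝ) ≤ q := by exact_mod_cast hq
  induction J with
  | zero => simp
  | succ J ih =>
    rw [sum_range_succ]
    have hJ : (0 : ℝ) ≤ J := J.cast_nonneg
    have h1 : (1 : ℝ) / ((q + 2 * J : ℕ) : ℝ) ^ 2 ≤
        1 / 2 * (1 / ((q : ℝ) + 2 * J - 1) - 1 / ((q : ℝ) + 2 * ((J + 1 : ℕ) : ℝ) - 1)) := by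
      push_cast
      have ha : (0 : ℝ) < (q : ℝ) + 2 * J - 1 := by linarith
      have hb : (0 : ℝ) < (q : ℝ) + 2 * ((J : ℝ) + 1) - 1 := by linarith
      have hc : (0 : ℝ) < (q : ℝ) + 2 * J := by linarith
      rw [div_sub_div _ _ ha.ne' hb.ne', mul_div, div_le_div_iff₀ (by positivity) (by positivity)]
      nlinarith
    linarith

theorem not_dvd_primorial {q : ℕ} (hq : q.Prime) : ¬ q ∣ primorial (q - 1) := by
  intro h
  unfold primorial at h
  obtain ⟨p, hp, hd⟩ := (Prime.dvd_finsetProd_iff hq.prime _).1 h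
  rw [mem_filter, mem_range] at hp
  have h1 := Nat.le_of_dvd hp.2.pos hd
  have h2 := hq.pos
  omega

theorem dvd_primorial {q l : ℕ} (hl : l.Prime) (hlq : l < q) : l ∣ primorial (q - 1) := by
  unfold primorial
  apply dvd_prod_of_mem (fun p : ℕ => p)
  rw [mem_filter, mem_range]
  exact ⟨by omega, hl⟩

/-- No prime `l < q` divides `q + k P B`. -/
theorem rough {q l : ℕ} (hq : q.Prime) (hl : l.Prime) (hlq : l < q) (k B : ℕ) :
    ¬ l ∣ q + k * primorial (q - 1) * B := by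
  intro h
  have h1 : l ∣ k * primorial (q - 1) * B := ((dvd_primorial hl hlq).mul_left k).mul_right B
  have h2 : l ∣ q := (Nat.dvd_add_left h1).1 h
  have h3 := (Nat.prime_dvd_prime_iff_eq hl hq).1 h2
  omega

theorem not_dvd_c {q k : ℕ} (hq : q.Prime) (hk : k ∈ Icc 1 (q - 1)) :
    ¬ q ∣ k * primorial (q - 1) := by
  intro h
  rw [mem_Icc] at hk
  rcases (Nat.Prime.dvd_mul hq).1 h with h1 | h1
  · have h2 := Nat.le_of_dvd (by omega) h1
    have h3 := hq.pos
    omega
  · exact not_dvd_primorial hq h1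

/-- The sum of the numbers of divisors over all `B` and `k`. -/
theorem total_le {q M D : ℕ} (hq : q.Prime)
    (hND : ∀ k ∈ Icc 1 (q - 1), ∀ B ∈ Icc 1 M, q + k * primorial (q - 1) * B ≤ D ^ 2) :
    ((∑ B ∈ Icc 1 M, ∑ k ∈ Icc 1 (q - 1), (q + k * primorial (q - 1) * B).divisors.card : ℕ) : ℝ) ≤
      2 * ((q : ℝ) - 1) * (M * (1 + Real.log D) + D) := by
  have h1 : ∑ B ∈ Icc 1 M, ∑ k ∈ Icc 1 (q - 1), (q + k * primorial (q - 1) * B).divisors.card ≤
      ∑ k ∈ Icc 1 (q - 1), 2 * ∑ d ∈ Icc 1 D, (M / d + 1) := by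
    rw [sum_comm]
    apply sum_le_sum
    intro k hk
    calc ∑ B ∈ Icc 1 M, (q + k * primorial (q - 1) * B).divisors.card
        ≤ ∑ B ∈ Icc 1 M, 2 * ((Icc 1 D).filter fun d => d ∣ q + k * primorial (q - 1) * B).card := by
          apply sum_le_sum
          intro B hB
          exact card_divisors_le (by have := hq.pos; omega) (hND k hk B hB)
      _ = 2 * ∑ d ∈ Icc 1 D, ((Icc 1 M).filter fun B => d ∣ q + k * primorial (q - 1) * B).card := by
          rw [← mul_sum]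
          congr 1
          simp only [card_filter]
          rw [sum_comm]
      _ ≤ 2 * ∑ d ∈ Icc 1 D, (M / d + 1) := by
          apply Nat.mul_le_mul_left
          apply sum_le_sum
          intro d _
          exact count_le hq (not_dvd_c hq hk) d M
  have h2 : ((∑ d ∈ Icc 1 D, (M / d + 1) : ℕ) : ℝ) ≤ M * (1 + Real.log D) + D := by
    push_cast
    rw [sum_add_distrib]
    have h3 : ∑ d ∈ Icc 1 D, ((M / d : ℕ) : ℝ) ≤ M * (harmonic D : ℝ) := by
      rw [harmonic_eq_sum_Icc]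
      push_cast
      rw [mul_sum]
      apply sum_le_sum
      intro d _
      rw [← div_eq_mul_inv]
      exact Nat.cast_div_le
    have h4 : (harmonic D : ℝ) ≤ 1 + Real.log D := harmonic_le_one_add_log D
    have h5 : (M : ℝ) * (harmonic D : ℝ) ≤ M * (1 + Real.log D) :=
      mul_le_mul_of_nonneg_left h4 M.cast_nonneg
    have h6 : ∑ _d ∈ Icc 1 D, (1 : ℝ) = D := by simp
    rw [h6]
    linarith
  have h3 : ((∑ B ∈ Icc 1 M, ∑ k ∈ Icc 1 (q - 1),
      (q + k * primorial (q - 1) * B).divisors.card : ℕ) : ℝ) ≤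
      ((∑ k ∈ Icc 1 (q - 1), 2 * ∑ d ∈ Icc 1 D, (M / d + 1) : ℕ) : ℝ) := by exact_mod_cast h1
  refine h3.trans ?_
  rw [sum_const, Nat.card_Icc, smul_eq_mul]
  have h7 : ((q - 1 + 1 - 1 : ℕ) : ℝ) = (q : ℝ) - 1 := by
    have := hq.one_lt.le
    rw [Nat.add_sub_cancel, Nat.cast_sub this, Nat.cast_one]
  have h8 : (0 : ℝ) ≤ (q : ℝ) - 1 := by
    have : (1 : ℝ) ≤ q := by exact_mod_cast hq.one_lt.le
    linarith
  rw [Nat.cast_mul, Nat.cast_mul, h7]
  push_cast at h2 ⊢
  calc ((q : ℝ) - 1) * (2 * ∑ d ∈ Icc 1 D, (((M / d : ℕ) : ℝ) + 1))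
      ≤ ((q : ℝ) - 1) * (2 * (M * (1 + Real.log D) + D)) := by
        apply mul_le_mul_of_nonneg_left _ h8
        linarith
    _ = 2 * ((q : ℝ) - 1) * (M * (1 + Real.log D) + D) := by ring

/-- The `B` for which one of the numbers is divisible by the square of a number `q + 2 j`. -/
theorem bad_le {q M J : ℕ} (hq : q.Prime) :
    (((Icc 1 M).filter fun B => ∃ k ∈ Icc 1 (q - 1), ∃ j ∈ range J,
      (q + 2 * j) ^ 2 ∣ q + k * primorial (q - 1) * B).card : ℝ) ≤
      M / 2 + ((q : ℝ) - 1) * J := by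
  have h1 : ((Icc 1 M).filter fun B => ∃ k ∈ Icc 1 (q - 1), ∃ j ∈ range J,
      (q + 2 * j) ^ 2 ∣ q + k * primorial (q - 1) * B).card ≤
      ∑ k ∈ Icc 1 (q - 1), ∑ j ∈ range J, (M / (q + 2 * j) ^ 2 + 1) := by
    have h2 : ((Icc 1 M).filter fun B => ∃ k ∈ Icc 1 (q - 1), ∃ j ∈ range J,
        (q + 2 * j) ^ 2 ∣ q + k * primorial (q - 1) * B) ⊆
        (Icc 1 (q - 1)).biUnion fun k => (range J).biUnion fun j =>
          (Icc 1 M).filter fun B => (q + 2 * j) ^ 2 ∣ q + k * primorial (q - 1) * B := by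
      intro B hB
      rw [mem_filter] at hB
      obtain ⟨hB1, k, hk, j, hj, h⟩ := hB
      rw [mem_biUnion]
      refine ⟨k, hk, ?_⟩
      rw [mem_biUnion]
      exact ⟨j, hj, mem_filter.2 ⟨hB1, h⟩⟩
    refine (card_le_card h2).trans (card_biUnion_le.trans (sum_le_sum fun k hk => ?_))
    refine card_biUnion_le.trans (sum_le_sum fun j _ => ?_)
    exact count_le hq (not_dvd_c hq hk) _ M
  have hq1 : (1 : ℝ) < q := by exact_mod_cast hq.one_lt
  have h3 : ((∑ j ∈ range J, (M / (q + 2 * j) ^ 2 + 1) : ℕ) : ℝ) ≤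
      M * (1 / 2 * (1 / ((q : ℝ) - 1))) + J := by
    push_cast
    rw [sum_add_distrib]
    have h4 : ∑ j ∈ range J, ((M / (q + 2 * j) ^ 2 : ℕ) : ℝ) ≤
        M * ∑ j ∈ range J, (1 : ℝ) / ((q + 2 * j : ℕ) : ℝ) ^ 2 := by
      rw [mul_sum]
      apply sum_le_sum
      intro j _
      rw [mul_one_div]
      refine Nat.cast_div_le.trans (le_of_eq ?_)
      rw [Nat.cast_pow]
    have h5 := sum_sq_le hq.two_le J
    have h6 : (0 : ℝ) ≤ 1 / ((q : ℝ) + 2 * J - 1) := by
      have : (0 : ℝ) ≤ J := J.cast_nonneg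
      apply div_nonneg zero_le_one
      linarith
    have h7 : (M : ℝ) * ∑ j ∈ range J, (1 : ℝ) / ((q + 2 * j : ℕ) : ℝ) ^ 2 ≤
        M * (1 / 2 * (1 / ((q : ℝ) - 1))) := by
      apply mul_le_mul_of_nonneg_left _ M.cast_nonneg
      linarith
    have h8 : ∑ _j ∈ range J, (1 : ℝ) = J := by simp
    rw [h8]
    push_cast at h4 h7 ⊢
    linarith
  have h4 : (((Icc 1 M).filter fun B => ∃ k ∈ Icc 1 (q - 1), ∃ j ∈ range J,
      (q + 2 * j) ^ 2 ∣ q + k * primorial (q - 1) * B).card : ℝ) ≤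
      ((∑ k ∈ Icc 1 (q - 1), ∑ j ∈ range J, (M / (q + 2 * j) ^ 2 + 1) : ℕ) : ℝ) := by
    exact_mod_cast h1
  refine h4.trans ?_
  rw [sum_const, Nat.card_Icc, smul_eq_mul]
  have h7 : ((q - 1 + 1 - 1 : ℕ) : ℝ) = (q : ℝ) - 1 := by
    have := hq.one_lt.le
    rw [Nat.add_sub_cancel, Nat.cast_sub this, Nat.cast_one]
  rw [Nat.cast_mul, h7]
  calc ((q : ℝ) - 1) * ((∑ j ∈ range J, (M / (q + 2 * j) ^ 2 + 1) : ℕ) : ℝ)
      ≤ ((q : ℝ) - 1) * (M * (1 / 2 * (1 / ((q : ℝ) - 1))) + J) :=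
        mul_le_mul_of_nonneg_left h3 (by linarith)
    _ = M / 2 + ((q : ℝ) - 1) * J := by
        have : (q : ℝ) - 1 ≠ 0 := by linarith
        field_simp

/-- The numerical bound. -/
theorem numeric {q P : ℕ} (hq : 3 ≤ q) (hP : 1 ≤ P) (hP4 : P ≤ 4 ^ (q - 1)) :
    ((q : ℝ) - 1) * (2 + Real.log ((8 * q ^ 2 * P : ℕ) : ℝ)) < 3 * (q : ℝ) ^ 2 := by
  have hq3 : (3 : ℝ) ≤ q := by exact_mod_cast hq
  have hPr : (0 : ℝ) < P := by exact_mod_cast hP
  have hl2 := Real.log_two_lt_d9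
  have h1 : Real.log (q : ℝ) ≤ q / 2 - 1 + Real.log 2 := by
    have h2 := Real.log_le_sub_one_of_pos (show (0 : ℝ) < (q : ℝ) / 2 by linarith)
    rw [Real.log_div (by linarith) (by norm_num)] at h2
    linarith
  have h3 : Real.log (P : ℝ) ≤ ((q : ℝ) - 1) * (2 * Real.log 2) := by
    have h4 : (P : ℝ) ≤ 4 ^ (q - 1) := by exact_mod_cast hP4
    have h5 := Real.log_le_log hPr h4
    rw [Real.log_pow, show (4 : ℝ) = 2 ^ 2 by norm_num, Real.log_pow,
      Nat.cast_sub (by omega)] at h5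
    push_cast at h5
    exact h5
  have h6 : Real.log ((8 * q ^ 2 * P : ℕ) : ℝ) =
      3 * Real.log 2 + 2 * Real.log q + Real.log P := by
    push_cast
    rw [Real.log_mul (by positivity) hPr.ne', Real.log_mul (by norm_num) (by positivity),
      Real.log_pow, show (8 : ℝ) = 2 ^ 3 by norm_num, Real.log_pow]
    push_cast
    ring
  rw [h6]
  have h7 : 3 * Real.log 2 + 2 * Real.log (q : ℝ) + Real.log (P : ℝ) ≤
      q - 2 + 5 * Real.log 2 + ((q : ℝ) - 1) * (2 * Real.log 2) := by linarith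
  have h8 : q - 2 + 5 * Real.log 2 + ((q : ℝ) - 1) * (2 * Real.log 2) ≤
      q - 2 + 5 * 0.7 + ((q : ℝ) - 1) * (2 * 0.7) := by
    have h9 : Real.log 2 ≤ 0.7 := by linarith
    have h10 : ((q : ℝ) - 1) * (2 * Real.log 2) ≤ ((q : ℝ) - 1) * (2 * 0.7) := by
      apply mul_le_mul_of_nonneg_left _ (by linarith)
      linarith
    linarith
  have h11 : ((q : ℝ) - 1) * (2 + (3 * Real.log 2 + 2 * Real.log q + Real.log P)) ≤
      ((q : ℝ) - 1) * (2 + (q - 2 + 5 * 0.7 + ((q : ℝ) - 1) * (2 * 0.7))) := by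
    apply mul_le_mul_of_nonneg_left _ (by linarith)
    linarith
  refine h11.trans_lt ?_
  nlinarith

theorem main {q : ℕ} (hq : q.Prime) (hq3 : 3 ≤ q) :
    ∃ A : ℕ, 1 ≤ A ∧ A ≤ 4 * q ^ 3 * 16 ^ q ∧
      (∀ k, 1 ≤ k → k < q → Squarefree (q + k * A) ∧
        ∀ l : ℕ, l.Prime → l < q → ¬ l ∣ q + k * A) ∧
      ∑ k ∈ Icc 1 (q - 1), (q + k * A).divisors.card ≤ 16 * q ^ 2 := by
  obtain ⟨P, hPdef⟩ : ∃ P, P = primorial (q - 1) := ⟨_, rfl⟩
  have hP1 : 1 ≤ P := hPdef ▸ primorial_pos _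
  have hP4 : P ≤ 4 ^ (q - 1) := hPdef ▸ primorial_le_four_pow _
  obtain ⟨M, hM⟩ : ∃ M, M = 64 * q ^ 3 * P := ⟨_, rfl⟩
  obtain ⟨D, hD⟩ : ∃ D, D = 8 * q ^ 2 * P := ⟨_, rfl⟩
  have hq0 : 0 < q := hq.pos
  have hP0 : 0 < P := hP1
  have hM1 : 0 < M := by rw [hM]; positivity
  have hD1 : 0 < D := by rw [hD]; positivity
  have hND : ∀ k ∈ Icc 1 (q - 1), ∀ B ∈ Icc 1 M, q + k * P * B ≤ D ^ 2 := by
    intro k hk B hB
    rw [mem_Icc] at hk hB
    have h1 : k * P * B ≤ (q - 1) * P * M :=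
      Nat.mul_le_mul (Nat.mul_le_mul_right _ hk.2) hB.2
    have h2 : q ≤ P * M := by
      calc q = q * 1 := (mul_one q).symm
        _ ≤ q ^ 3 * P := Nat.mul_le_mul (by nlinarith [sq_nonneg (q : ℤ)] : q ≤ q ^ 3) hP1
        _ ≤ M := by rw [hM]; nlinarith [Nat.zero_le (q ^ 3 * P)]
        _ ≤ P * M := Nat.le_mul_of_pos_left M (by omega)
    have h3 : (q - 1) * P * M + P * M = D ^ 2 := by
      obtain ⟨r, hr⟩ : ∃ r, q = r + 1 := ⟨q - 1, by omega⟩
      rw [hD, hM, hr, Nat.add_sub_cancel]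
      ring
    omega
  by_contra hcon
  push Not at hcon
  -- the good `B`
  obtain ⟨Bad, hBad⟩ : ∃ Bad, Bad = ((Icc 1 M).filter fun B => ∃ k ∈ Icc 1 (q - 1), ∃ j ∈ range D,
      (q + 2 * j) ^ 2 ∣ q + k * primorial (q - 1) * B) := ⟨_, rfl⟩
  have hbad := bad_le (M := M) (J := D) hq
  rw [← hBad] at hbad
  have hbig : ∀ B ∈ Icc 1 M, B ∉ Bad →
      16 * q ^ 2 < ∑ k ∈ Icc 1 (q - 1), (q + k * primorial (q - 1) * B).divisors.card := by
    intro B hB hBb
    have hB' := mem_Icc.1 hB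
    have h1 := hcon (P * B) (Nat.mul_pos hP1 hB'.1) (by
      calc P * B ≤ P * M := Nat.mul_le_mul_left _ hB'.2
        _ = 64 * q ^ 3 * (P * P) := by rw [hM]; ring
        _ ≤ 64 * q ^ 3 * (4 ^ (q - 1) * 4 ^ (q - 1)) :=
          Nat.mul_le_mul_left _ (Nat.mul_le_mul hP4 hP4)
        _ = 4 * q ^ 3 * 16 ^ q := by
          obtain ⟨r, hr⟩ : ∃ r, q = r + 1 := ⟨q - 1, by omega⟩
          rw [hr, Nat.add_sub_cancel, ← mul_pow, pow_succ 16 r]
          ring) (by
      intro k hk1 hk2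
      have hkm : k ∈ Icc 1 (q - 1) := mem_Icc.2 ⟨hk1, by omega⟩
      have e : q + k * (P * B) = q + k * primorial (q - 1) * B := by rw [hPdef]; ring
      rw [e]
      refine ⟨?_, fun l hl hlq => rough hq hl hlq k B⟩
      rw [Nat.squarefree_iff_prime_squarefree]
      intro p hp hpp
      apply hBb
      rw [hBad, mem_filter]
      refine ⟨hB, k, hkm, ?_⟩
      have hpd : p ∣ q + k * primorial (q - 1) * B := (Dvd.intro _ rfl).trans hpp
      have hpq : q ≤ p := by
        by_contra hlt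
        exact rough hq hp (by omega) k B hpd
      have hodd : ∀ x : ℕ, x.Prime → 3 ≤ x → x % 2 = 1 := by
        intro x hx hx3
        rcases hx.eq_two_or_odd with h | h
        · omega
        · exact h
      have ho1 := hodd p hp (by omega)
      have ho2 := hodd q hq hq3
      have hpD : p ≤ D := by
        have h2 : p * p ≤ q + k * primorial (q - 1) * B := Nat.le_of_dvd (by omega) hpp
        have h3 := hND k hkm B hB
        rw [hPdef] at h3
        nlinarith
      refine ⟨(p - q) / 2, mem_range.2 (by omega), ?_⟩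
      have h4 : q + 2 * ((p - q) / 2) = p := by omega
      rw [h4, sq]
      exact hpp)
    refine h1.trans_le (le_of_eq ?_)
    apply sum_congr rfl
    intro k _
    rw [hPdef]
    congr 2
    ring
  -- count
  have htot := total_le (M := M) (D := D) hq (by
    intro k hk B hB
    have := hND k hk B hB
    rwa [hPdef] at this)
  have hsub : Bad ⊆ Icc 1 M := by rw [hBad]; exact filter_subset _ _
  have hgood : (((Icc 1 M \ Bad).card : ℕ) : ℝ) = M - Bad.card := by
    rw [card_sdiff_of_subset hsub, Nat.cast_sub (card_le_card hsub), Nat.card_Icc]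
    simp
  have hlow : ((Icc 1 M \ Bad).card * (16 * q ^ 2) : ℕ) ≤
      ∑ B ∈ Icc 1 M, ∑ k ∈ Icc 1 (q - 1), (q + k * primorial (q - 1) * B).divisors.card := by
    calc ((Icc 1 M \ Bad).card * (16 * q ^ 2) : ℕ) = ∑ B ∈ Icc 1 M \ Bad, 16 * q ^ 2 := by
          rw [sum_const, smul_eq_mul]
      _ ≤ ∑ B ∈ Icc 1 M \ Bad, ∑ k ∈ Icc 1 (q - 1),
          (q + k * primorial (q - 1) * B).divisors.card := by
          apply sum_le_sum
          intro B hB
          rw [mem_sdiff] at hB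
          exact (hbig B hB.1 hB.2).le
      _ ≤ _ := sum_le_sum_of_subset sdiff_subset
  have hlow' : ((M : ℝ) - Bad.card) * (16 * (q : ℝ) ^ 2) ≤
      2 * ((q : ℝ) - 1) * (M * (1 + Real.log D) + D) := by
    refine le_trans ?_ htot
    rw [← hgood]
    exact_mod_cast hlow
  have hq3' : (3 : ℝ) ≤ q := by exact_mod_cast hq3
  have hMr : (M : ℝ) = 64 * (q : ℝ) ^ 3 * P := by rw [hM]; push_cast; ring
  have hDr : (D : ℝ) = 8 * (q : ℝ) ^ 2 * P := by rw [hD]; push_cast; ring
  have hMpos : (0 : ℝ) < M := by exact_mod_cast hM1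
  have hDM : (D : ℝ) * (8 * q) = M := by rw [hMr, hDr]; ring
  have hnum := numeric hq3 hP1 hP4
  rw [← hD] at hnum
  -- `Bad` has at most `5 M / 8` elements
  have hb : (Bad.card : ℝ) ≤ M / 2 + M / 8 := by
    have hDpos : (0 : ℝ) ≤ D := D.cast_nonneg
    have : ((q : ℝ) - 1) * D ≤ M / 8 := by
      rw [← hDM]
      nlinarith
    linarith
  have h1 : (6 * (q : ℝ) ^ 2) * M ≤ ((M : ℝ) - Bad.card) * (16 * (q : ℝ) ^ 2) := by
    have h2 : (3 : ℝ) / 8 * M ≤ (M : ℝ) - Bad.card := by linarith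
    calc (6 * (q : ℝ) ^ 2) * M = (3 / 8 * M) * (16 * (q : ℝ) ^ 2) := by ring
      _ ≤ _ := mul_le_mul_of_nonneg_right h2 (by positivity)
  have h3 : 2 * ((q : ℝ) - 1) * (M * (1 + Real.log D) + D) ≤
      (2 * (((q : ℝ) - 1) * (2 + Real.log D))) * M := by
    have h4 : (D : ℝ) ≤ M := by
      rw [← hDM]
      have hDpos : (0 : ℝ) ≤ D := D.cast_nonneg
      nlinarith
    have h5 : 2 * ((q : ℝ) - 1) * (M * (1 + Real.log D) + D) ≤
        2 * ((q : ℝ) - 1) * (M * (1 + Real.log D) + M) := by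
      apply mul_le_mul_of_nonneg_left _ (by linarith)
      linarith
    refine h5.trans (le_of_eq ?_)
    ring
  have h6 : (2 * (((q : ℝ) - 1) * (2 + Real.log D))) * M < (6 * (q : ℝ) ^ 2) * M := by
    apply mul_lt_mul_of_pos_right _ hMpos
    linarith
  linarith

/-- For every prime `q` there is `A` with `1 ≤ A ≤ 4 q ^ 3 16 ^ q` such that the numbers `q + k A`,
`1 ≤ k < q`, are all squarefree, have no prime factor below `q`, and have together at most
`16 q ^ 2` divisors. -/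
theorem result (q : ℕ) (hq : q.Prime) :
    ∃ A : ℕ, 1 ≤ A ∧ A ≤ 4 * q ^ 3 * 16 ^ q ∧
      (∀ k, 1 ≤ k → k < q → Squarefree (q + k * A) ∧
        ∀ l : ℕ, l.Prime → l < q → ¬ l ∣ q + k * A) ∧
      ∑ k ∈ Finset.Icc 1 (q - 1), (q + k * A).divisors.card ≤ 16 * q ^ 2 := by
  rcases Nat.lt_or_ge q 3 with h | h
  · have h2 : q = 2 := by
      have := hq.two_le
      omega
    subst h2
    refine ⟨1, le_rfl, by norm_num, ?_, ?_⟩
    · intro k hk1 hk2
      have hk : k = 1 := by omega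
      subst hk
      refine ⟨Nat.prime_three.squarefree, fun l hl hl2 => ?_⟩
      have := hl.two_le
      omega
    · have h3 : Finset.Icc 1 (2 - 1) = {1} := rfl
      rw [h3, sum_singleton, show 2 + 1 * 1 = 3 from rfl, Nat.Prime.divisors Nat.prime_three]
      exact (card_le_two).trans (by norm_num)
  · exact main hq h

end Pool.Agent.Results.MP_d49082_nt.FewDivisors
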